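import Pool.Agent.Helper3.FewP.Goals

/-!
Packet STRIP-PSL (MP_d3128a_ag): power series over Laurent polynomials are a ring with coefficients.
-/

set_option autoImplicit false

namespace Pool.Agent.Helper87.FewP

open Pool.Agent.Helper3.FewP

variable {F Δ : Type} [Field F] [AddCommGroup Δ]

/-- the coefficients. -/
noncomputable def cfP (f : PowerSeries (AddMonoidAlgebra F Δ)) (γ : ℤ × Δ) : F :=
  if 0 ≤ γ.1 then (PowerSeries.coeff γ.1.toNat f).coeff γ.2 else 0

theorem cfP_nat (f : PowerSeries (AddMonoidAlgebra F Δ)) (e : ℕ) (δ : Δ) :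
    cfP f ((e : ℤ), δ) = (PowerSeries.coeff e f).coeff δ := by
  unfold cfP
  rw [if_pos (Int.natCast_nonneg e)]
  rfl

theorem cfP_neg (f : PowerSeries (AddMonoidAlgebra F Δ)) (γ : ℤ × Δ) (h : γ.1 < 0) :
    cfP f γ = 0 := by
  unfold cfP
  rw [if_neg (not_le.2 h)]

open Classical in
theorem coeff_formula (f g : PowerSeries (AddMonoidAlgebra F Δ)) (e : ℕ) (δ : Δ) :
    (PowerSeries.coeff e (f * g)).coeff δ =
      ∑ p ∈ Finset.HasAntidiagonal.antidiagonal e, ∑ m₁ ∈ (PowerSeries.coeff p.1 f).coeff.support,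
        ∑ m₂ ∈ (PowerSeries.coeff p.2 g).coeff.support,
          if m₁ + m₂ = δ then (PowerSeries.coeff p.1 f).coeff m₁ * (PowerSeries.coeff p.2 g).coeff m₂
          else 0 := by
  rw [PowerSeries.coeff_mul]
  have h1 : ∀ (s : Finset (ℕ × ℕ)) (u : ℕ × ℕ → AddMonoidAlgebra F Δ),
      (∑ p ∈ s, u p).coeff δ = ∑ p ∈ s, (u p).coeff δ := by
    intro s u
    induction s using Finset.induction_on with
    | empty => simp
    | insert a s ha ih =>
      rw [Finset.sum_insert ha, Finset.sum_insert ha, AddMonoidAlgebra.coeff_add, Finsupp.add_apply,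
        ih]
  rw [h1]
  refine Finset.sum_congr rfl fun p _ => ?_
  rw [AddMonoidAlgebra.coeff_mul]
  rfl

theorem cfP_supp (f g : PowerSeries (AddMonoidAlgebra F Δ)) (γ : ℤ × Δ) (h : cfP (f * g) γ ≠ 0) :
    ∃ α β, α + β = γ ∧ cfP f α ≠ 0 ∧ cfP g β ≠ 0 := by
  classical
  have h0 : 0 ≤ γ.1 := by
    by_contra hc
    exact h (cfP_neg _ _ (not_le.1 hc))
  obtain ⟨e, he⟩ := Int.eq_ofNat_of_zero_le h0
  have hγ : γ = ((e : ℤ), γ.2) := Prod.ext he rfl
  rw [hγ, cfP_nat, coeff_formula] at h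
  obtain ⟨p, hp, h2⟩ := Finset.exists_ne_zero_of_sum_ne_zero h
  obtain ⟨m₁, _, h3⟩ := Finset.exists_ne_zero_of_sum_ne_zero h2
  obtain ⟨m₂, _, h4⟩ := Finset.exists_ne_zero_of_sum_ne_zero h3
  by_cases hm : m₁ + m₂ = γ.2
  · rw [if_pos hm] at h4
    refine ⟨((p.1 : ℤ), m₁), ((p.2 : ℤ), m₂), ?_, ?_, ?_⟩
    · rw [hγ]
      refine Prod.ext ?_ hm
      show (p.1 : ℤ) + (p.2 : ℤ) = e
      rw [← Finset.HasAntidiagonal.mem_antidiagonal.1 hp]
      push_cast
      rfl
    · rw [cfP_nat]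
      exact left_ne_zero_of_mul h4
    · rw [cfP_nat]
      exact right_ne_zero_of_mul h4
  · rw [if_neg hm] at h4
    exact absurd rfl h4

theorem cfP_mul (f g : PowerSeries (AddMonoidAlgebra F Δ)) (α β : ℤ × Δ)
    (hu : ∀ α' β', α' + β' = α + β → cfP f α' ≠ 0 → cfP g β' ≠ 0 → α' = α ∧ β' = β) :
    cfP (f * g) (α + β) = cfP f α * cfP g β := by
  classical
  by_cases hz : cfP f α * cfP g β = 0
  · rw [hz]
    by_contra hne
    obtain ⟨α', β', h1, h2, h3⟩ := cfP_supp f g _ hne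
    obtain ⟨rfl, rfl⟩ := hu α' β' h1 h2 h3
    exact (mul_ne_zero h2 h3) hz
  · have hf := left_ne_zero_of_mul hz
    have hg := right_ne_zero_of_mul hz
    have ha : 0 ≤ α.1 := by
      by_contra hc
      exact hf (cfP_neg _ _ (not_le.1 hc))
    have hb : 0 ≤ β.1 := by
      by_contra hc
      exact hg (cfP_neg _ _ (not_le.1 hc))
    obtain ⟨a, ha'⟩ := Int.eq_ofNat_of_zero_le ha
    obtain ⟨b, hb'⟩ := Int.eq_ofNat_of_zero_le hb
    have hα : α = ((a : ℤ), α.2) := Prod.ext ha' rfl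
    have hβ : β = ((b : ℤ), β.2) := Prod.ext hb' rfl
    have hab : α + β = (((a + b : ℕ) : ℤ), α.2 + β.2) := by
      refine Prod.ext ?_ rfl
      show α.1 + β.1 = ((a + b : ℕ) : ℤ)
      rw [ha', hb']
      push_cast
      rfl
    have hterm : ∀ (p : ℕ × ℕ) (m₁ m₂ : Δ), p.1 + p.2 = a + b → m₁ + m₂ = α.2 + β.2 →
        (PowerSeries.coeff p.1 f).coeff m₁ * (PowerSeries.coeff p.2 g).coeff m₂ ≠ 0 →
        p = (a, b) ∧ m₁ = α.2 ∧ m₂ = β.2 := by
      intro p m₁ m₂ hp hm hne
      have h1 := hu ((p.1 : ℤ), m₁) ((p.2 : ℤ), m₂) ?_ ?_ ?_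
      · obtain ⟨h2, h3⟩ := h1
        have h4 : (p.1 : ℤ) = a := (congrArg Prod.fst h2).trans ha'
        have h5 : (p.2 : ℤ) = b := (congrArg Prod.fst h3).trans hb'
        refine ⟨Prod.ext (by exact_mod_cast h4) (by exact_mod_cast h5), congrArg Prod.snd h2,
          congrArg Prod.snd h3⟩
      · rw [hab]
        refine Prod.ext ?_ hm
        show (p.1 : ℤ) + (p.2 : ℤ) = ((a + b : ℕ) : ℤ)
        rw [← hp]
        push_cast
        rfl
      · rw [cfP_nat]
        exact left_ne_zero_of_mul hne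
      · rw [cfP_nat]
        exact right_ne_zero_of_mul hne
    have hfa : cfP f α = (PowerSeries.coeff a f).coeff α.2 := by
      conv_lhs => rw [hα]
      rw [cfP_nat]
    have hgb : cfP g β = (PowerSeries.coeff b g).coeff β.2 := by
      conv_lhs => rw [hβ]
      rw [cfP_nat]
    rw [hab, cfP_nat, coeff_formula, hfa, hgb]
    rw [hfa] at hf
    rw [hgb] at hg
    rw [Finset.sum_eq_single_of_mem (a, b) (Finset.HasAntidiagonal.mem_antidiagonal.2 rfl),
      Finset.sum_eq_single_of_mem α.2 (Finsupp.mem_support_iff.2 hf),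
      Finset.sum_eq_single_of_mem β.2 (Finsupp.mem_support_iff.2 hg), if_pos rfl]
    · intro m₂ _ hm₂
      by_contra hne
      have hm : α.2 + m₂ = α.2 + β.2 := by
        by_contra hc
        rw [if_neg hc] at hne
        exact hne rfl
      exact hm₂ (add_left_cancel hm)
    · intro m₁ _ hm₁
      refine Finset.sum_eq_zero fun m₂ _ => ?_
      by_contra hne
      have hm : m₁ + m₂ = α.2 + β.2 := by
        by_contra hc
        rw [if_neg hc] at hne
        exact hne rfl
      rw [if_pos hm] at hne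
      exact hm₁ (hterm (a, b) m₁ m₂ rfl hm hne).2.1
    · intro p hp hpab
      refine Finset.sum_eq_zero fun m₁ _ => Finset.sum_eq_zero fun m₂ _ => ?_
      by_contra hne
      have hm : m₁ + m₂ = α.2 + β.2 := by
        by_contra hc
        rw [if_neg hc] at hne
        exact hne rfl
      rw [if_pos hm] at hne
      exact hpab (hterm p m₁ m₂ (Finset.HasAntidiagonal.mem_antidiagonal.1 hp) hm hne).1

theorem t : G_PSL := by
  intro F Δ _ _
  refine ⟨⟨cfP, ?_, cfP_supp, cfP_mul, ?_⟩, cfP_nat⟩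
  · intro f g γ
    unfold cfP
    by_cases h : 0 ≤ γ.1
    · rw [if_pos h, if_pos h, if_pos h, map_add, AddMonoidAlgebra.coeff_add, Finsupp.add_apply]
    · rw [if_neg h, if_neg h, if_neg h, add_zero]
  · constructor
    · have h := cfP_nat (1 : PowerSeries (AddMonoidAlgebra F Δ)) 0 0
      rw [PowerSeries.coeff_zero_one, AddMonoidAlgebra.coeff_one_zero] at h
      exact h
    · intro γ hγ
      classical
      by_cases h0 : 0 ≤ γ.1
      · obtain ⟨e, he⟩ := Int.eq_ofNat_of_zero_le h0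
        have hγ' : γ = ((e : ℤ), γ.2) := Prod.ext he rfl
        rw [hγ', cfP_nat, PowerSeries.coeff_one]
        by_cases he0 : e = 0
        · rw [if_pos he0, AddMonoidAlgebra.one_def, AddMonoidAlgebra.coeff_single,
            Finsupp.single_apply, if_neg]
          intro h2
          apply hγ
          rw [hγ', he0, ← h2]
          rfl
        · rw [if_neg he0, AddMonoidAlgebra.coeff_zero, Finsupp.zero_apply]
      · exact cfP_neg _ _ (not_le.1 h0)

end Pool.Agent.Helper87.FewP
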